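import Pool.Agent.W902.C6.Stm

/-!
Letters of a word, head of a word (helper919, for helper902).
-/

set_option autoImplicit false

namespace Pool.Agent.W919.C6.Let

open Pool.Agent.W902.C6

theorem letm : S_let := by
  classical
  intro A T I
  set P : Finset ℝ := (posns A T).filter (fun x => x ∈ I) with hP
  have hL : word A T I = (P.sort (· ≤ ·)).map (lett A T) := rfl
  have hnd : (P.sort (· ≤ ·)).Nodup := Finset.sort_nodup P _
  constructor
  · rw [hL, List.countP_map, List.countP_eq_length_filter,
      ← List.toFinset_card_of_nodup (hnd.filter _)]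
    refine Finset.card_le_card ?_
    intro r hr
    rw [List.mem_toFinset, List.mem_filter] at hr
    have h1 : (decide (r ∈ A)) = true := hr.2
    exact of_decide_eq_true h1
  · rw [hL, List.countP_map, List.countP_eq_length_filter,
      ← List.toFinset_card_of_nodup (hnd.filter _),
      ← Finset.card_image_of_injective _ (inv_injective (G := ℝ))]
    refine Finset.card_le_card ?_
    intro r hr
    rw [Finset.mem_image] at hr
    obtain ⟨s, hs, rfl⟩ := hr
    rw [List.mem_toFinset, List.mem_filter] at hs
    have h1 : (decide (s⁻¹ ∈ T)) = true := hs.2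
    exact of_decide_eq_true h1

theorem headm : S_head := by
  classical
  intro A T I x l h
  set P : Finset ℝ := (posns A T).filter (fun x => x ∈ I) with hP
  have hL : word A T I = (P.sort (· ≤ ·)).map (lett A T) := rfl
  rw [hL, List.map_eq_cons_iff] at h
  obtain ⟨r, l', h1, h2, -⟩ := h
  have hr : r ∈ P := by
    have : r ∈ P.sort (· ≤ ·) := by rw [h1]; exact List.mem_cons_self
    exact (Finset.mem_sort _).1 this
  rw [hP, Finset.mem_filter] at hr
  refine ⟨r, hr.2, hr.1, h2, fun r' hr' hI => ?_⟩
  have h3 : r' ∈ P.sort (· ≤ ·) := (Finset.mem_sort _).2 (by rw [hP, Finset.mem_filter]; exact ⟨hr', hI⟩)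
  have h4 : (P.sort (· ≤ ·)).Pairwise (· ≤ ·) := Finset.pairwise_sort P _
  rw [h1] at h3 h4
  rcases List.mem_cons.1 h3 with h5 | h5
  · exact h5.ge
  · exact (List.pairwise_cons.1 h4).1 r' h5

end Pool.Agent.W919.C6.Let
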